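import Mathlib

namespace Pool.Agent.Results.MP_c90ce4_lc.Yes

/-- formulas of `L1` -/
inductive LF
  | eps (a b : ℕ) | neg (φ : LF) | or (φ ψ : LF)

def LF.imp (φ ψ : LF) : LF := φ.neg.or ψ
def LF.and (φ ψ : LF) : LF := (φ.neg.or ψ.neg).neg

def LF.eval (v : ℕ → ℕ → Prop) : LF → Prop
  | eps a b => v a b
  | neg φ => ¬ φ.eval v
  | or φ ψ => φ.eval v ∨ ψ.eval v

inductive L1 : LF → Prop
  | taut (φ) : (∀ v, φ.eval v) → L1 φ
  | mp (φ ψ) : L1 (φ.imp ψ) → L1 φ → L1 ψ
  | ax1 (a b) : L1 ((LF.eps a b).imp (.eps a a))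
  | ax2 (a b c) : L1 (((LF.eps a b).and (.eps b c)).imp (.eps a c))
  | ax3 (a b c) : L1 (((LF.eps a b).and (.eps b c)).imp (.eps b a))

/-- modal formulas over variables `V` -/
inductive MF (V : Type)
  | var (p : V) | neg (φ : MF V) | or (φ ψ : MF V) | box (φ : MF V)

def MF.imp {V : Type} (φ ψ : MF V) : MF V := φ.neg.or ψ

def MF.dia {V : Type} (φ : MF V) : MF V := φ.neg.box.neg

def MF.subst {V V' : Type} (s : V → MF V') : MF V → MF V'
  | var p => s p
  | neg φ => (φ.subst s).neg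
  | or φ ψ => (φ.subst s).or (ψ.subst s)
  | box φ => (φ.subst s).box

/-- Boolean evaluation, variables and boxed formulas being atoms -/
def MF.eval (v : MF ℕ → Prop) : MF ℕ → Prop
  | var p => v (var p)
  | neg φ => ¬ φ.eval v
  | or φ ψ => φ.eval v ∨ ψ.eval v
  | box φ => v (box φ)

inductive S42 : MF ℕ → Prop
  | taut (φ) : (∀ v, φ.eval v) → S42 φ
  | mp (φ ψ) : S42 (φ.imp ψ) → S42 φ → S42 ψ
  | nec (φ) : S42 φ → S42 φ.box
  | subst (s φ) : S42 φ → S42 (φ.subst s)
  | k : S42 (((MF.var 0).imp (.var 1)).box.imp ((MF.var 0).box.imp (MF.var 1).box))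
  | t : S42 ((MF.var 0).box.imp (.var 0))
  | four : S42 ((MF.var 0).box.imp (MF.var 0).box.box)
  | two : S42 ((MF.var 0).box.dia.imp (MF.var 0).dia.box)

def tr (p : ℕ → ℕ) (F : MF Bool) : LF → MF ℕ
  | .eps a b => F.subst fun i => .var (if i then p a else p b)
  | .neg φ => (tr p F φ).neg
  | .or φ ψ => (tr p F φ).or (tr p F ψ)

def MF.and {V : Type} (φ ψ : MF V) : MF V := (φ.neg.or ψ.neg).neg

def le {V : Type} (x y : V) : MF V := ((MF.var x).box.imp (MF.var y).box).box

def F0 {V : Type} (x y : V) : MF V :=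
  (MF.var x).and ((le x y).and ((MF.var y).imp (le y x)))

theorem tr_eps (p : ℕ → ℕ) (a b : ℕ) : tr p (F0 true false) (.eps a b) = F0 (p a) (p b) := rfl

theorem grz_of (l : List (MF ℕ)) (h : ∀ γ ∈ l, S42 γ) :
    ∀ φ : MF ℕ, (∀ v, (∀ γ ∈ l, γ.eval v) → φ.eval v) → S42 φ := by
  induction l with
  | nil => exact fun φ hφ => .taut φ fun v => hφ v (by simp)
  | cons γ l ih =>
    intro φ hφ
    refine .mp γ φ (ih (fun δ hδ => h δ (by simp [hδ])) _ fun v hv => ?_) (h γ (by simp))
    simp only [MF.imp, MF.eval]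
    by_cases c : γ.eval v
    · exact Or.inr (hφ v (by simpa [c] using hv))
    · exact Or.inl c

theorem l1_of (l : List LF) (h : ∀ γ ∈ l, L1 γ) :
    ∀ φ : LF, (∀ v, (∀ γ ∈ l, γ.eval v) → φ.eval v) → L1 φ := by
  induction l with
  | nil => exact fun φ hφ => .taut φ fun v => hφ v (by simp)
  | cons γ l ih =>
    intro φ hφ
    refine .mp γ φ (ih (fun δ hδ => h δ (by simp [hδ])) _ fun v hv => ?_) (h γ (by simp))
    simp only [LF.imp, LF.eval]
    by_cases c : γ.eval v
    · exact Or.inr (hφ v (by simpa [c] using hv))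
    · exact Or.inl c

theorem grzK (φ ψ : MF ℕ) : S42 ((φ.imp ψ).box.imp (φ.box.imp ψ.box)) :=
  .subst (fun i => if i = 0 then φ else ψ) _ .k

theorem le_refl' (x : ℕ) : S42 (le x x) :=
  .nec _ (.taut _ fun v => by simp only [MF.imp, MF.eval]; tauto)

theorem le_trans' (x y z : ℕ) : S42 ((le x y).imp ((le y z).imp (le x z))) := by
  have h1 : S42 ((((MF.var x).box.imp (MF.var y).box).imp (((MF.var y).box.imp (MF.var z).box).imp
      ((MF.var x).box.imp (MF.var z).box))).box) :=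
    .nec _ (.taut _ fun v => by simp only [MF.imp, MF.eval]; tauto)
  have h2 := S42.mp _ _ (grzK _ _) h1
  have h3 := grzK ((MF.var y).box.imp (MF.var z).box) ((MF.var x).box.imp (MF.var z).box)
  refine grz_of [_, _] (List.forall_mem_cons.2 ⟨h2, List.forall_mem_singleton.2 h3⟩) _ fun v => ?_
  simp only [List.forall_mem_cons, List.not_mem_nil, le, MF.imp, MF.eval]
  tauto

theorem eval_tr (p : ℕ → ℕ) (F : MF Bool) (v : MF ℕ → Prop) : ∀ φ : LF,
    (tr p F φ).eval v ↔ φ.eval fun a b => (tr p F (.eps a b)).eval v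
  | .eps _ _ => Iff.rfl
  | .neg φ => not_congr (eval_tr p F v φ)
  | .or φ ψ => or_congr (eval_tr p F v φ) (eval_tr p F v ψ)

theorem eval_F0 (v : MF ℕ → Prop) (x y : ℕ) : (F0 x y).eval v ↔
    (v (.var x) ∧ (le x y).eval v ∧ (v (.var y) → (le y x).eval v)) := by
  simp only [F0, MF.and, MF.imp, MF.eval]
  tauto

theorem sound (p : ℕ → ℕ) {φ : LF} (h : L1 φ) : S42 (tr p (F0 true false) φ) := by
  induction h with
  | taut φ h => exact .taut _ fun v => (eval_tr _ _ _ _).2 (h _)
  | mp φ ψ _ _ h1 h2 => exact .mp _ _ h1 h2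
  | ax1 a b =>
    refine grz_of [_] (List.forall_mem_singleton.2 (le_refl' (p a))) _ fun v => ?_
    rw [eval_tr]
    simp only [List.forall_mem_cons, List.not_mem_nil, LF.imp, LF.eval, tr_eps, eval_F0]
    tauto
  | ax2 a b c =>
    refine grz_of [_, _] (List.forall_mem_cons.2 ⟨le_trans' (p a) (p b) (p c),
      List.forall_mem_singleton.2 (le_trans' (p c) (p b) (p a))⟩) _ fun v => ?_
    rw [eval_tr]
    simp only [List.forall_mem_cons, List.not_mem_nil, LF.imp, LF.and, LF.eval, tr_eps, eval_F0,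
      MF.imp, MF.eval]
    tauto
  | ax3 a b c =>
    refine .taut _ fun v => ?_
    rw [eval_tr]
    simp only [LF.imp, LF.and, LF.eval, tr_eps, eval_F0]
    tauto

/-- Kripke semantics on a root below an antichain below a top -/
def sat (V : ℕ → Bool ⊕ Option ℕ → Prop) : MF ℕ → Bool ⊕ Option ℕ → Prop
  | .var p, w => V p w
  | .neg φ, w => ¬ sat V φ w
  | .or φ ψ, w => sat V φ w ∨ sat V ψ w
  | .box φ, w => ∀ w', (w = .inl false ∨ w = w' ∨ w' = .inl true) → sat V φ w'

theorem sat_subst (V : ℕ → Bool ⊕ Option ℕ → Prop) (s : ℕ → MF ℕ) : ∀ (φ : MF ℕ) (w),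
    sat V (φ.subst s) w ↔ sat (fun p => sat V (s p)) φ w
  | .var _, _ => Iff.rfl
  | .neg φ, w => not_congr (sat_subst V s φ w)
  | .or φ ψ, w => or_congr (sat_subst V s φ w) (sat_subst V s ψ w)
  | .box φ, _ => forall_congr' fun w' => imp_congr_right fun _ => sat_subst V s φ w'

theorem eval_sat (V : ℕ → Bool ⊕ Option ℕ → Prop) (w) : ∀ φ : MF ℕ,
    φ.eval (fun ψ => sat V ψ w) ↔ sat V φ w
  | .var _ => Iff.rfl
  | .neg φ => not_congr (eval_sat V w φ)
  | .or φ ψ => or_congr (eval_sat V w φ) (eval_sat V w ψ)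
  | .box _ => Iff.rfl

theorem valid {φ : MF ℕ} (h : S42 φ) : ∀ V w, sat V φ w := by
  induction h with
  | taut φ h => exact fun V w => (eval_sat V w φ).1 (h _)
  | mp φ ψ _ _ h1 h2 => exact fun V w => (h1 V w).resolve_left fun h => h (h2 V w)
  | nec φ _ h => exact fun V w w' _ => h V w'
  | subst s φ _ h => exact fun V w => (sat_subst V s φ w).2 (h _ w)
  | k =>
    intro V w
    simp only [MF.imp, sat, ← imp_iff_not_or]
    exact fun h1 h2 w' hw => h1 w' hw (h2 w' hw)
  | t =>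
    intro V w
    simp only [MF.imp, sat, ← imp_iff_not_or]
    exact fun h => h w (Or.inr (Or.inl rfl))
  | four =>
    intro V w
    simp only [MF.imp, sat, ← imp_iff_not_or]
    intro h w' h1 w'' h2
    apply h
    grind
  | two =>
    intro V w
    simp only [MF.imp, MF.dia, sat, ← imp_iff_not_or]
    intro h w' _ h2
    exact h fun w'' _ h3 => h2 (.inl true) (by simp) (h3 _ (by simp))

def names : LF → List ℕ
  | .eps a b => [a, b]
  | .neg φ => names φ
  | .or φ ψ => names φ ++ names ψ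

theorem eval_congr {v v' : ℕ → ℕ → Prop} : ∀ φ : LF,
    (∀ a ∈ names φ, ∀ b ∈ names φ, (v a b ↔ v' a b)) → (φ.eval v ↔ φ.eval v')
  | .eps a b, h => h a (by simp [names]) b (by simp [names])
  | .neg φ, h => not_congr (eval_congr φ h)
  | .or φ ψ, h => or_congr
      (eval_congr φ fun a ha b hb => h a (by simp [names, ha]) b (by simp [names, hb]))
      (eval_congr ψ fun a ha b hb => h a (by simp [names, ha]) b (by simp [names, hb]))

theorem complete (φ : LF) (h : ∀ e : ℕ → ℕ → Prop, (∀ a b, e a b → e a a) →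
    (∀ a b c, e a b → e b c → e a c) → (∀ a b c, e a b → e b c → e b a) → φ.eval e) : L1 φ := by
  let n := names φ
  refine l1_of (n.flatMap fun a => n.flatMap fun b => n.flatMap fun c =>
    [(LF.eps a b).imp (.eps a a), ((LF.eps a b).and (.eps b c)).imp (.eps a c),
      ((LF.eps a b).and (.eps b c)).imp (.eps b a)]) ?_ φ fun v hv => ?_
  · simp only [List.forall_mem_flatMap, List.forall_mem_cons]
    exact fun a _ b _ c _ => ⟨.ax1 a b, .ax2 a b c, .ax3 a b c, by simp⟩
  · simp only [List.forall_mem_flatMap, List.forall_mem_cons, LF.imp, LF.and, LF.eval] at hv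
    refine (eval_congr (v' := fun a b => a ∈ n ∧ b ∈ n ∧ v a b) φ fun a ha b hb => ?_).2
      (h _ ?_ ?_ ?_)
    · simp [n, ha, hb]
    · rintro a b ⟨ha, hb, h⟩
      have := hv a ha b hb a ha
      tauto
    · rintro a b c ⟨ha, hb, h⟩ ⟨-, hc, h'⟩
      have := hv a ha b hb c hc
      tauto
    · rintro a b c ⟨ha, hb, h⟩ ⟨-, hc, h'⟩
      have := hv a ha b hb c hc
      tauto

theorem result : ∃ F : MF Bool, ∀ p : ℕ → ℕ, Function.Injective p →
    ∀ φ : LF, L1 φ ↔ S42 (tr p F φ) := by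
  refine ⟨F0 true false, fun p hp φ => ⟨sound p, fun h => complete φ fun e h1 h2 h3 => ?_⟩⟩
  let U : ℕ → Bool ⊕ Option ℕ → Prop := fun a =>
    Sum.elim (fun b => b = true ∨ e a a) fun x => x.elim False fun c => e c a
  let V : ℕ → Bool ⊕ Option ℕ → Prop := fun q w => ∃ a, p a = q ∧ U a w
  have hV : ∀ a w, V (p a) w ↔ U a w :=
    fun a w => ⟨fun ⟨b, hb, h⟩ => hp hb ▸ h, fun h => ⟨a, rfl, h⟩⟩
  have hle : ∀ a b, sat V (le (p a) (p b)) (.inl false) ↔ ∀ c, e c a → e c b := by
    intro a b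
    simp only [le, MF.imp, sat, ← imp_iff_not_or, hV]
    refine ⟨fun h c hc => h (.inr (some c)) (by simp) ?_ (.inr (some c)) (by simp), ?_⟩
    · rintro w' (hw | rfl | rfl)
      · cases hw
      · exact hc
      · exact Or.inl rfl
    · rintro h ((_ | _) | _ | c) - h4 w'' hw
      · exact (h4 (.inr none) (Or.inl rfl)).elim
      · obtain rfl : w'' = .inl true := by grind
        exact Or.inl rfl
      · exact (h4 (.inr none) (by simp)).elim
      · rcases hw with hw | rfl | rfl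
        · cases hw
        · exact h c (h4 (.inr (some c)) (by simp))
        · exact Or.inl rfl
  have hU : ∀ a, U a (.inl false) ↔ e a a := fun a => by simp [U]
  have h4 := (eval_tr _ _ _ _).1 ((eval_sat V (.inl false) _).2 (valid h V _))
  refine (eval_congr φ fun a _ b _ => ?_).1 h4
  rw [eval_sat, tr_eps]
  simp only [F0, MF.and, MF.imp, sat, hle, hV, hU]
  constructor
  · intro h
    by_contra hne
    apply h
    by_cases c : e a a
    · exact Or.inr fun h5 => h5 (Or.inl fun h6 => hne (h6 a c))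
    · exact Or.inl c
  · intro h h5
    rcases h5 with h5 | h5
    · exact h5 (h1 a b h)
    · refine h5 fun h6 => h6.elim (fun h7 => h7 fun c hc => h2 c a b hc h) fun h7 => h7 ?_
      by_cases c : e b b
      · exact Or.inr fun d hd => h2 d b a hd (h3 a b b h c)
      · exact Or.inl c

end Pool.Agent.Results.MP_c90ce4_lc.Yes
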